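import Pool.Agent.Helper33_TDL.K2s

/-!
# BASE: the standard base
-/

set_option autoImplicit false

namespace Pool.Agent.TDL.H53

open scoped Classical
open Pool.Agent.TDL

variable {T P : Type} {X : Pos T P} {Bad : Finset T → Prop}

theorem Nc.memS {Q C : Finset T} (hQ : Nc X Bad Q C) : C ∈ S X Bad Q := by
  rw [hQ.s]
  exact Finset.mem_singleton_self C

theorem ph_def (R : Finset T) : ph X R = 2 * (R.card : ℤ) - ((J X R).card : ℤ) := rfl

/-- The two cases for an attached player. -/
theorem dicho (h : K2N X Bad) {Q C : Finset T} {y1 : P} (hQ : Nc X Bad Q C) (hy : y1 ∈ J X Q)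
    (h3 : (X.N y1).card = 3) {e : P} {B D : Finset T} (he : Att X C e) (hB : Nc X Bad B D)
    (hs : X.N e ⊆ B) {t : T} (ht : t ∈ X.N e) (htC : t ∉ C) :
    t ∈ Q ∧ t ∉ D ∧ S X Bad (Q \ D) = ∅ ∧ (∀ p ∈ J X (Q \ D), (X.N p).card = 2) ∧
      Meets X y1 D ∧
      ((Q \ D = {t} ∧ t ∈ X.N y1 ∧ ∀ p ∈ J X Q, Meets X p D) ∨
        (Q ∩ D = X.N y1 ∩ D ∧ (Q ∩ D).card = 2 ∧ (∀ p ∈ J X Q, Meets X p D → p = y1) ∧
          2 * (Q \ D).card = (J X (Q \ D)).card + 3)) := by
  have hCS := Nc.memS hQ
  have hDS := Nc.memS hB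
  have hclD := h.clu D (S.bad hDS)
  obtain ⟨hyA, hyQ⟩ := mem_J.1 hy
  have htQ : t ∈ Q := S.cl' hCS he.1 he.2.1 ht htC
  have htD : t ∉ D := fun h' => S.not_mem hDS h' (hs ht)
  obtain ⟨-, l2, l3, l4, l5, l6⟩ := h.link Q C B D e hQ hB he hs
  have hYU : Q \ D ⊆ X.U := Finset.sdiff_subset.trans hQ.sub
  have hJ2 : ∀ p ∈ J X (Q \ D), (X.N p).card = 2 := by
    intro p hp
    obtain ⟨hp1, hp2⟩ := mem_J.1 hp
    have g := h.ng.g4 p hp1 (Q \ D) hYU hp2
    have n := h.no_pend hp1
    omega
  have hmy : Meets X y1 D := by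
    by_contra hm
    have : y1 ∈ J X (Q \ D) := by
      refine mem_J.2 ⟨hyA, fun s hs' => Finset.mem_sdiff.2 ⟨hyQ hs', fun h' => hm (meets_of hs' h')⟩⟩
    have := hJ2 y1 this
    omega
  have hnotmeet : ∀ p ∈ J X Q, ¬ Meets X p D → p ∈ J X (Q \ D) := by
    intro p hp hm
    obtain ⟨hp1, hp2⟩ := mem_J.1 hp
    exact mem_J.2 ⟨hp1, fun s hs' => Finset.mem_sdiff.2 ⟨hp2 hs', fun h' => hm (meets_of hs' h')⟩⟩
  have hy2 := hclD.two y1 hyA hmy
  refine ⟨htQ, htD, l3, hJ2, hmy, ?_⟩
  have hcase : cost X Q D = 4 ∨ cost X Q D = 3 := by omega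
  rcases hcase with hc | hc
  · left
    have hph : ph X (Q \ D) = 2 := by omega
    have hJ0 : J X (Q \ D) = ∅ := by
      rw [Finset.eq_empty_iff_forall_notMem]
      intro p hp
      obtain ⟨hp1, hp2⟩ := mem_J.1 hp
      have g := h.ng.g4 p hp1 (Q \ D) hYU hp2
      have n := h.no_pend hp1
      omega
    have hcard : (Q \ D).card = 1 := by
      rw [ph_def, hJ0, Finset.card_empty] at hph
      omega
    have htY : t ∈ Q \ D := Finset.mem_sdiff.2 ⟨htQ, htD⟩
    obtain ⟨t', ht'⟩ := Finset.card_eq_one.1 hcard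
    have htt : t = t' := by
      rw [ht'] at htY
      exact Finset.mem_singleton.1 htY
    subst htt
    refine ⟨ht', ?_, ?_⟩
    · by_contra hty
      have hsub : X.N y1 ⊆ X.N y1 ∩ D := by
        intro s hs'
        refine Finset.mem_inter.2 ⟨hs', ?_⟩
        by_contra hsD
        have : s ∈ Q \ D := Finset.mem_sdiff.2 ⟨hyQ hs', hsD⟩
        rw [ht', Finset.mem_singleton] at this
        exact hty (this ▸ hs')
      have := Finset.card_le_card hsub
      omega
    · intro p hp
      by_contra hm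
      have := hnotmeet p hp hm
      rw [hJ0] at this
      exact absurd this (Finset.notMem_empty p)
  · right
    have hQD : (Q ∩ D).card = 2 := by
      by_contra hne
      have := cost_ge4 hclD (B := Q) (by omega)
      omega
    have hone : ((J X Q).filter fun p => Meets X p D).card = 1 := by
      unfold cost at hc
      rw [hQD] at hc
      push_cast at hc
      omega
    obtain ⟨p0, hp0⟩ := Finset.card_eq_one.1 hone
    have hy0 : y1 = p0 := by
      have : y1 ∈ (J X Q).filter fun p => Meets X p D := Finset.mem_filter.2 ⟨hy, hmy⟩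
      rw [hp0] at this
      exact Finset.mem_singleton.1 this
    subst hy0
    refine ⟨?_, hQD, ?_, ?_⟩
    · symm
      apply Finset.eq_of_subset_of_card_le
      · exact Finset.inter_subset_inter hyQ (Finset.Subset.refl _)
      · rw [hQD, hy2]
    · intro p hp hm
      have : p ∈ (J X Q).filter fun p => Meets X p D := Finset.mem_filter.2 ⟨hp, hm⟩
      rw [hp0] at this
      exact Finset.mem_singleton.1 this
    · have : ph X (Q \ D) = 3 := by omega
      rw [ph_def] at this
      omega

/-- A set which closes `C` has level at most `-4`. -/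
theorem closes (h : K2N X Bad) {Q C R : Finset T} (hQ : Nc X Bad Q C) (hR : R ⊆ Q)
    (hcl : ∀ p, Att X C p → ∀ t ∈ X.N p, t ∉ C → t ∈ R) :
    C ∈ S X Bad R ∧ (2 : ℤ) + (J X R).card + 4 ≤ 2 * R.card := by
  have hCS := Nc.memS hQ
  obtain ⟨a1, a2, a3, a4, a5⟩ := mem_S.1 hCS
  have hC : C ∈ S X Bad R := by
    refine mem_S.2 ⟨a1, a2, a3, a4.mono_right hR, ?_⟩
    intro p hp hm t ht
    by_cases htC : t ∈ C
    · exact Finset.mem_union_left _ htC
    · exact Finset.mem_union_right _ (hcl p ⟨hp, hm, fun h' => htC (h' ht)⟩ t ht htC)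
  refine ⟨hC, ?_⟩
  have h1 := h.closer R (hR.trans hQ.sub) ⟨C, hC⟩
  have h2 : 1 ≤ (S X Bad R).card := Finset.card_pos.2 ⟨C, hC⟩
  unfold F at h1
  omega

theorem base : BaseStmt := by
  intro T P X Bad h Q C y1 hQ hy h3
  have hCS := Nc.memS hQ
  obtain ⟨hyA, hyQ⟩ := mem_J.1 hy
  -- (s1)
  obtain ⟨x, hx, t0, ht0, ht0C, ht0y⟩ :
      ∃ x, Att X C x ∧ ∃ t ∈ X.N x, t ∉ C ∧ t ∉ X.N y1 := by
    by_contra hcon
    push Not at hcon
    obtain ⟨-, h1⟩ := closes h hQ hyQ hcon
    have h2 : 1 ≤ (J X (X.N y1)).card :=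
      Finset.card_pos.2 ⟨y1, mem_J.2 ⟨hyA, Finset.Subset.refl _⟩⟩
    omega
  obtain ⟨B, D, hB, hxB⟩ := h.wit1 Q C x hQ hx
  obtain ⟨d1, d2, d3, d4, d5, d6⟩ := dicho h hQ hy h3 hx hB hxB ht0 ht0C
  have hclD := h.clu D (S.bad (Nc.memS hB))
  rcases d6 with ⟨-, d6, -⟩ | ⟨e1, e2, e3, e4⟩
  · exact absurd d6 ht0y
  have hy2 := hclD.two y1 hyA d5
  -- the element `c0`
  obtain ⟨c0, hc0, hc0D⟩ : ∃ c0 ∈ X.N y1, c0 ∉ D := by
    by_contra hcon
    push Not at hcon
    have : X.N y1 ∩ D = X.N y1 := Finset.inter_eq_left.2 hcon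
    rw [this] at hy2
    omega
  have hc0u : ∀ s ∈ X.N y1, s ∉ D → s = c0 := by
    intro s hs hsD
    by_contra hne
    have hsub : insert s (insert c0 (X.N y1 ∩ D)) ⊆ X.N y1 := by
      intro r hr
      rw [Finset.mem_insert, Finset.mem_insert, Finset.mem_inter] at hr
      rcases hr with rfl | rfl | hr
      · exact hs
      · exact hc0
      · exact hr.1
    have := Finset.card_le_card hsub
    rw [Finset.card_insert_of_notMem, Finset.card_insert_of_notMem] at this
    · omega
    · exact fun h' => hc0D (Finset.mem_inter.1 h').2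
    · rw [Finset.mem_insert]
      rintro (h' | h')
      · exact hne h'
      · exact hsD (Finset.mem_inter.1 h').2
  have hc0Y : c0 ∈ Q \ D := Finset.mem_sdiff.2 ⟨hyQ hc0, hc0D⟩
  -- (s2)
  obtain ⟨e, he, s1, hs1, hs1C, hs1Y⟩ :
      ∃ e, Att X C e ∧ ∃ s ∈ X.N e, s ∉ C ∧ s ∉ Q \ D := by
    by_contra hcon
    push Not at hcon
    obtain ⟨h1, -⟩ := closes h hQ (Finset.sdiff_subset (s := Q) (t := D)) hcon
    rw [d3] at h1
    exact absurd h1 (Finset.notMem_empty C)
  have hs1Q : s1 ∈ Q := S.cl' hCS he.1 he.2.1 hs1 hs1C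
  have hs1D : s1 ∈ D := by
    by_contra h'
    exact hs1Y (Finset.mem_sdiff.2 ⟨hs1Q, h'⟩)
  obtain ⟨Be, De, hBe, heB⟩ := h.wit1 Q C e hQ he
  have hclDe := h.clu De (S.bad (Nc.memS hBe))
  obtain ⟨f1, f2, f3, f4, f5, f6⟩ := dicho h hQ hy h3 he hBe heB hs1 hs1C
  have hYcard : 2 ≤ (Q \ D).card := by omega
  have htight : Q \ De = {s1} := by
    rcases f6 with f6 | ⟨g1, g2, g3, g4⟩
    · exact f6.1
    exfalso
    have hs1y : s1 ∈ X.N y1 := by
      have : s1 ∈ Q ∩ D := Finset.mem_inter.2 ⟨hs1Q, hs1D⟩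
      rw [e1] at this
      exact (Finset.mem_inter.1 this).1
    -- `c0 ∈ De`
    have hc0De : c0 ∈ De := by
      by_contra hc
      have hsub : insert s1 (insert c0 (X.N y1 ∩ De)) ⊆ X.N y1 := by
        intro r hr
        rw [Finset.mem_insert, Finset.mem_insert, Finset.mem_inter] at hr
        rcases hr with rfl | rfl | hr
        · exact hs1y
        · exact hc0
        · exact hr.1
      have := Finset.card_le_card hsub
      rw [Finset.card_insert_of_notMem, Finset.card_insert_of_notMem,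
        hclDe.two y1 hyA f5] at this
      · omega
      · exact fun h' => hc (Finset.mem_inter.1 h').2
      · rw [Finset.mem_insert]
        rintro (h' | h')
        · exact hc0D (h' ▸ hs1D)
        · exact f2 (Finset.mem_inter.1 h').2
    have hJ : J X (Q \ D) ⊆ J X ((Q \ D).erase c0) := by
      intro p hp
      obtain ⟨hp1, hp2⟩ := mem_J.1 hp
      refine mem_J.2 ⟨hp1, fun s hs => Finset.mem_erase.2 ⟨?_, hp2 hs⟩⟩
      rintro rfl
      have hpQ : p ∈ J X Q := mem_J.2 ⟨hp1, hp2.trans Finset.sdiff_subset⟩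
      have hpy := g3 p hpQ (meets_of hs hc0De)
      subst hpy
      obtain ⟨r, hr1, hr2⟩ := (meets_iff _ _).1 d5
      exact (Finset.mem_sdiff.1 (hp2 hr1)).2 hr2
    have hJc := Finset.card_le_card hJ
    have hcE := Finset.card_erase_of_mem hc0Y
    have hg := h.ng.g0 ((Q \ D).erase c0)
      ((Finset.erase_subset _ _).trans (Finset.sdiff_subset.trans hQ.sub))
      (Finset.card_pos.1 (by omega))
    unfold F at hg
    rw [hcE] at hg
    have : (((Q \ D).card - 1 : ℕ) : ℤ) = ((Q \ D).card : ℤ) - 1 := by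
      push_cast [Nat.cast_sub (by omega : 1 ≤ (Q \ D).card)]
      ring
    rw [this] at hg
    omega
  have hYDe : Q \ D ⊆ De := by
    intro s hs
    obtain ⟨hs1', hs2⟩ := Finset.mem_sdiff.1 hs
    by_contra hsDe
    have : s ∈ Q \ De := Finset.mem_sdiff.2 ⟨hs1', hsDe⟩
    rw [htight, Finset.mem_singleton] at this
    exact hs2 (this ▸ hs1D)
  -- (s3)
  have hJEi : J X (Q \ D) ⊆ Ei X De (Q \ D) := by
    intro p hp
    obtain ⟨hp1, hp2⟩ := mem_J.1 hp
    obtain ⟨s, hs⟩ := X.ne p hp1
    refine mem_Ei.2 ⟨hp1, meets_of hs (hYDe (hp2 hs)), fun r hr => hp2 (Finset.mem_inter.1 hr).1⟩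
  have hYcard2 : (Q \ D).card = 2 := by
    by_contra hne
    have h1 := hclDe.sp3 (Q \ D) hYDe (by omega)
    have h2 := Finset.card_le_card hJEi
    omega
  have hJcard : (J X (Q \ D)).card = 1 := by omega
  obtain ⟨y2, hy2'⟩ := Finset.card_eq_one.1 hJcard
  have hy2J : y2 ∈ J X (Q \ D) := by rw [hy2']; exact Finset.mem_singleton_self y2
  obtain ⟨hy2A, hy2sub⟩ := mem_J.1 hy2J
  have hNy2 : X.N y2 = Q \ D := by
    apply Finset.eq_of_subset_of_card_le hy2sub
    rw [d4 y2 hy2J, hYcard2]
  obtain ⟨b, hb, hbc⟩ := Finset.exists_mem_ne (by omega : 1 < (Q \ D).card) c0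
  have hYab : Q \ D = {c0, b} := by
    symm
    apply Finset.eq_of_subset_of_card_le
    · intro r hr
      rw [Finset.mem_insert, Finset.mem_singleton] at hr
      rcases hr with rfl | rfl
      · exact hc0Y
      · exact hb
    · rw [Finset.card_pair (Ne.symm hbc), hYcard2]
  have hby : b ∉ X.N y1 := fun h' => hbc (hc0u b h' (Finset.mem_sdiff.1 hb).2)
  have hQeq : Q = insert b (X.N y1) := by
    ext s
    rw [Finset.mem_insert]
    constructor
    · intro hs
      by_cases hsD : s ∈ D
      · right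
        have : s ∈ Q ∩ D := Finset.mem_inter.2 ⟨hs, hsD⟩
        rw [e1] at this
        exact (Finset.mem_inter.1 this).1
      · have : s ∈ Q \ D := Finset.mem_sdiff.2 ⟨hs, hsD⟩
        rw [hYab, Finset.mem_insert, Finset.mem_singleton] at this
        rcases this with rfl | rfl
        · exact Or.inr hc0
        · exact Or.inl rfl
    · rintro (rfl | hs)
      · exact (Finset.mem_sdiff.1 hb).1
      · exact hyQ hs
  have hQcard : Q.card = 4 := by
    rw [hQeq, Finset.card_insert_of_notMem hby, h3]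
  have hy2Q : y2 ∈ J X Q := mem_J.2 ⟨hy2A, hy2sub.trans Finset.sdiff_subset⟩
  have hNy2' : X.N y2 = {c0, b} := by rw [hNy2, hYab]
  have hc0b : c0 ≠ b := Ne.symm hbc
  have hy12 : y2 ≠ y1 := by
    rintro rfl
    rw [hNy2', Finset.card_pair hc0b] at h3
    omega
  refine ⟨y2, c0, b, ⟨hQ, hyA, hy2A, h3, hc0, hby, hQeq, hNy2', ?_, ?_, ?_⟩⟩
  · intro p
    constructor
    · intro hp
      by_cases hm : Meets X p D
      · exact Or.inl (e3 p hp hm)
      · right
        obtain ⟨hp1, hp2⟩ := mem_J.1 hp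
        have : p ∈ J X (Q \ D) := mem_J.2 ⟨hp1, fun s hs' =>
          Finset.mem_sdiff.2 ⟨hp2 hs', fun h' => hm (meets_of hs' h')⟩⟩
        rw [hy2'] at this
        exact Finset.mem_singleton.1 this
    · rintro (rfl | rfl)
      · exact hy
      · exact hy2Q
  · -- (s4)
    intro e' B' D' he' hB' hs' t ht htC t' ht'
    obtain ⟨i1, i2, i3, i4, i5, i6⟩ := dicho h hQ hy h3 he' hB' hs' ht htC
    have hclD' := h.clu D' (S.bad (Nc.memS hB'))
    rcases i6 with ⟨j1, j2, j3⟩ | ⟨j1, j2, j3, j4⟩
    · have hm := j3 y2 hy2Q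
      have h22 := hclD'.two y2 hy2A hm
      have hin : X.N y2 ⊆ D' := by
        have : X.N y2 ∩ D' = X.N y2 := by
          apply Finset.eq_of_subset_of_card_le Finset.inter_subset_left
          rw [h22, hNy2', Finset.card_pair hc0b]
        rw [← this]
        exact Finset.inter_subset_right
      have haD : c0 ∈ D' := hin (by rw [hNy2']; simp)
      have hbD : b ∈ D' := hin (by rw [hNy2']; simp)
      have hta : t ≠ c0 := fun h' => i2 (h' ▸ haD)
      have htb : t ≠ b := fun h' => i2 (h' ▸ hbD)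
      have hkt : kk c0 b t = t := by unfold kk; rw [if_neg htb]
      rw [hkt]
      have hD't : t' ∈ D' ↔ t' ≠ t := by
        constructor
        · rintro h1 rfl
          exact i2 h1
        · intro h1
          by_contra h2
          have : t' ∈ Q \ D' := Finset.mem_sdiff.2 ⟨ht', h2⟩
          rw [j1, Finset.mem_singleton] at this
          exact h1 this
      rw [hD't]
      unfold kk
      by_cases htb' : t' = b
      · rw [if_pos htb']
        exact ⟨fun _ => Ne.symm hta, fun _ => by rw [htb']; exact Ne.symm htb⟩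
      · rw [if_neg htb']
    · have hm : ¬ Meets X y2 D' := fun h' => hy12 (j3 y2 hy2Q h')
      have haD : c0 ∉ D' := fun h' => hm (meets_of (by rw [hNy2']; simp) h')
      have hbD : b ∉ D' := fun h' => hm (meets_of (by rw [hNy2']; simp) h')
      have hc2 : (Q \ {c0, b}).card = 2 := by
        rw [Finset.card_sdiff_of_subset, hQcard, Finset.card_pair hc0b]
        rw [← hYab]
        exact Finset.sdiff_subset
      have hQD' : Q ∩ D' = Q \ {c0, b} := by
        apply Finset.eq_of_subset_of_card_le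
        · intro s hs
          obtain ⟨k1, k2⟩ := Finset.mem_inter.1 hs
          refine Finset.mem_sdiff.2 ⟨k1, ?_⟩
          rw [Finset.mem_insert, Finset.mem_singleton]
          rintro (rfl | rfl)
          · exact haD k2
          · exact hbD k2
        · rw [hc2, j2]
      have hD't : ∀ s ∈ Q, (s ∈ D' ↔ s ≠ c0 ∧ s ≠ b) := by
        intro s hs
        constructor
        · intro h1
          have : s ∈ Q ∩ D' := Finset.mem_inter.2 ⟨hs, h1⟩
          rw [hQD', Finset.mem_sdiff, Finset.mem_insert, Finset.mem_singleton] at this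
          push Not at this
          exact this.2
        · intro h1
          have : s ∈ Q \ {c0, b} := by
            rw [Finset.mem_sdiff, Finset.mem_insert, Finset.mem_singleton]
            push Not
            exact ⟨hs, h1⟩
          rw [← hQD'] at this
          exact (Finset.mem_inter.1 this).2
      have hkt : kk c0 b t = c0 := by
        have h1 := hD't t i1
        unfold kk
        by_cases htb : t = b
        · rw [if_pos htb]
        · rw [if_neg htb]
          by_contra hne
          exact i2 (h1.2 ⟨hne, htb⟩)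
      rw [hkt, hD't t' ht']
      unfold kk
      by_cases htb' : t' = b
      · rw [if_pos htb']
        constructor
        · intro h1
          exact absurd htb' h1.2
        · intro h1
          exact absurd rfl h1
      · rw [if_neg htb']
        constructor
        · exact fun h1 => h1.1
        · exact fun h1 => ⟨h1, htb'⟩
  · -- (s5)
    intro r hr
    have hrb : r ≠ b := fun h' => hby (h' ▸ hr)
    by_contra hcon
    push Not at hcon
    by_cases hra : r = c0
    · subst hra
      have hcl : ∀ p, Att X C p → ∀ t ∈ X.N p, t ∉ C → t ∈ (Q.erase r).erase b := by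
        intro p hp t ht htC
        have htQ : t ∈ Q := S.cl' hCS hp.1 hp.2.1 ht htC
        have h1 := hcon p hp t ht htC
        unfold kk at h1
        rw [Finset.mem_erase, Finset.mem_erase]
        by_cases htb : t = b
        · rw [if_pos htb] at h1
          exact absurd rfl h1
        · rw [if_neg htb] at h1
          exact ⟨htb, h1, htQ⟩
      obtain ⟨-, h1⟩ := closes h hQ ((Finset.erase_subset _ _).trans (Finset.erase_subset _ _)) hcl
      have h2 : ((Q.erase r).erase b).card = 2 := by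
        rw [Finset.card_erase_of_mem, Finset.card_erase_of_mem (hyQ hr), hQcard]
        rw [Finset.mem_erase]
        exact ⟨Ne.symm hrb, (Finset.mem_sdiff.1 hb).1⟩
      rw [h2] at h1
      push_cast at h1
      omega
    · have hcl : ∀ p, Att X C p → ∀ t ∈ X.N p, t ∉ C → t ∈ Q.erase r := by
        intro p hp t ht htC
        have htQ : t ∈ Q := S.cl' hCS hp.1 hp.2.1 ht htC
        have h1 := hcon p hp t ht htC
        rw [Finset.mem_erase]
        refine ⟨?_, htQ⟩
        rintro rfl
        unfold kk at h1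
        rw [if_neg hrb] at h1
        exact h1 rfl
      obtain ⟨-, h1⟩ := closes h hQ (Finset.erase_subset _ _) hcl
      have h2 : (Q.erase r).card = 3 := by
        rw [Finset.card_erase_of_mem (hyQ hr), hQcard]
      have h5 : 1 ≤ (J X (Q.erase r)).card := by
        refine Finset.card_pos.2 ⟨y2, mem_J.2 ⟨hy2A, ?_⟩⟩
        intro s hs
        rw [hNy2', Finset.mem_insert, Finset.mem_singleton] at hs
        rw [Finset.mem_erase]
        rcases hs with rfl | rfl
        · exact ⟨Ne.symm hra, (Finset.mem_sdiff.1 hc0Y).1⟩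
        · exact ⟨Ne.symm hrb, (Finset.mem_sdiff.1 hb).1⟩
      rw [h2] at h1
      push_cast at h1
      omega

end Pool.Agent.TDL.H53
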