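import Mathlib
import Pool.Agent.Helper34_TDL.Brg0
import Pool.Agent.Helper53_TDG.Split

/-!
# BDRL, BDRH: the drop of a light and of a heavy move
-/

set_option linter.unusedSectionVars false

namespace Pool.Agent.TDG.H53

open Finset Helper77.TDG Pool.Agent.TDG Pool.Agent.TDG.BR

variable {V X : Type} [Fintype V] [DecidableEq V] [DecidableEq X]
variable {N : V → Finset X} {Hv U : Finset X}

lemma exists_max_above {Z : Finset X} (hZ : Z ⊆ U \ Hv) :
    ∃ T, Z ⊆ T ∧ T ⊆ U \ Hv ∧ ∀ T', Z ⊆ T' → T' ⊆ U \ Hv → sf N Hv U T' ≤ sf N Hv U T := by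
  obtain ⟨T, hT, hmax⟩ := exists_max_image ((U \ Hv).powerset.filter fun T => Z ⊆ T)
    (fun T => sf N Hv U T) ⟨Z, by simp [hZ]⟩
  rw [mem_filter, mem_powerset] at hT
  refine ⟨T, hT.2, hT.1, fun T' h1 h2 => hmax T' ?_⟩
  rw [mem_filter, mem_powerset]
  exact ⟨h2, h1⟩

/-- `3 M(U \ Z) ≤ 2 Φ + sf T - 3 #J(Z)`. -/
lemma three_MM_sdiff {Z T : Finset X} (hZ : Z ⊆ U \ Hv) (hZT : Z ⊆ T) (hT : T ⊆ U \ Hv)
    (hmax : ∀ T', Z ⊆ T' → T' ⊆ U \ Hv → sf N Hv U T' ≤ sf N Hv U T) :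
    3 * MM N Hv (U \ Z) + 3 * ((J N U Z).card : ℤ) ≤ sf N Hv U T + 2 * (Phi N Hv U : ℤ) := by
  have h1 := MM_sdiff_le (N := N) hZ hT hZT (S := T) (fun T' h1 h2 => hmax T' h2 h1)
  have h2 := GG_formula (N := N) hT
  have h3 := rs_nonneg (N := N) (Hv := Hv) (U := U) T
  linarith

theorem dropLight : DropLightStmt := by
  intro V X _ _ _ N Hv U Z v hW hlow hv hvZ hZ
  obtain ⟨T, h1, h2, h3⟩ := exists_max_above (N := N) hZ
  refine ⟨T, h1, h2, h3, ?_⟩
  have h4 := three_MM_sdiff (N := N) hZ h1 h2 h3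
  have hN : ∀ x, ∃ u, x ∈ N u := by
    intro x
    by_cases hx : x ∈ Hv
    · have := hW.one x hx
      obtain ⟨u, hu⟩ := card_pos.1 (by rw [this]; omega : 0 < (univ.filter fun v => x ∈ N v).card)
      exact ⟨u, (mem_filter.1 hu).2⟩
    · have := hW.two x hx
      obtain ⟨u, hu⟩ := card_pos.1 (by omega : 0 < (univ.filter fun v => x ∈ N v).card)
      exact ⟨u, (mem_filter.1 hu).2⟩
  have h5 := ns_extract hN (U \ N v) (Z \ N v)
  have h6 : (U \ N v) \ (Z \ N v) = U \ Z := by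
    ext x
    simp only [mem_sdiff]
    constructor
    · rintro ⟨⟨h7, h8⟩, h9⟩
      exact ⟨h7, fun h10 => h9 ⟨h10, h8⟩⟩
    · rintro ⟨h7, h8⟩
      refine ⟨⟨h7, fun h9 => h8 (hvZ (mem_inter.2 ⟨h9, h7⟩))⟩, fun h9 => h8 h9.1⟩
  have h7 : (Z \ N v).card + (N v ∩ U).card = Z.card := by
    have h8 : Z ∩ N v = N v ∩ U := by
      ext x
      simp only [mem_inter]
      constructor
      · rintro ⟨h9, h10⟩
        exact ⟨h10, (mem_sdiff.1 (hZ h9)).1⟩
      · rintro ⟨h9, h10⟩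
        exact ⟨hvZ (mem_inter.2 ⟨h9, h10⟩), h9⟩
    rw [← h8]
    exact card_sdiff_add_card_inter Z (N v)
  rw [h6] at h5
  have h8 : U \ Z ⊂ U := by
    refine sdiff_subset.ssubset_of_ne fun h => ?_
    obtain ⟨x, hx⟩ := hv
    have h9 : x ∈ U \ Z := by rw [h]; exact (mem_inter.1 hx).2
    exact (mem_sdiff.1 h9).2 (hvZ hx)
  have h9 := hlow _ h8
  have h10 : ph N U Z = 2 * (Z.card : ℤ) - ((J N U Z).card : ℤ) := rfl
  rw [h10]
  have h11 : (ns N (U \ N v) : ℤ) ≤ 2 * ((Z \ N v).card : ℤ) + ns N (U \ Z) := by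
    exact_mod_cast h5
  have h12 : ((Z \ N v).card : ℤ) + (N v ∩ U).card = Z.card := by exact_mod_cast h7
  linarith

theorem dropHeavy : DropHeavyStmt := by
  intro V X _ _ _ N Hv U v hW hlow hv hheavy
  have hZ : (N v ∩ U) \ Hv ⊆ U \ Hv := hit_subset
  obtain ⟨T, h1, h2, h3⟩ := exists_max_above (N := N) hZ
  refine ⟨T, h1, h2, h3, ?_⟩
  have h4 := three_MM_sdiff (N := N) hZ h1 h2 h3
  rcases hW.heavy_cases U v with hd | ⟨h, H⟩
  · exfalso
    apply hheavy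
    intro x hx
    exact mem_sdiff.2 ⟨(mem_inter.1 hx).2, disjoint_left.1 hd hx⟩
  · have h5 := H.MM_move
    have h8 : U \ N v ⊂ U := by
      refine sdiff_subset.ssubset_of_ne fun h => ?_
      have := sdiff_card_lt hv
      rw [h] at this
      omega
    have h9 := hlow _ h8
    unfold hit at h5
    linarith

end Pool.Agent.TDG.H53
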